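import Pool.Agent.J4H50.YK.Stm

set_option autoImplicit false
set_option linter.unusedSectionVars false

/-! # Project YK: (W1) the partition of the arcs at the origin by the levels -/

namespace Pool.Agent.J4H40.YK

open MvPolynomial
open Pool.Agent.W428.MOT
open Pool.Agent.J4H50.YJ
open Pool.Agent.J4H50.YK

section

variable {K : Type} [Field K] {σ : Type}

theorem Sf_anti (w : σ → ℕ) (D W : ℕ) {s s' : ℕ} (h : s ≤ s') :
    (Sf w D W s' : Set (Ac K σ)) ⊆ Sf w D W s :=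
  fun _ hx i j hj => hx i j (hj.trans_le (Nat.mul_le_mul_right _ h))

theorem Sf_one (w : σ → ℕ) (D : ℕ) (hw : ∀ i, 0 < w i ∧ w i ≤ D) (x : Ac K σ) :
    x ∈ (Sf w D 1 1 : Set (Ac K σ)) ↔ ∀ i, PowerSeries.coeff 0 (x i) = 0 := by
  constructor
  · intro h i
    exact h i 0 (by rw [mul_zero, one_mul]; exact (hw i).1)
  · intro h i j hj
    rw [mul_one, one_mul] at hj
    have h1 : j = 0 := by
      by_contra h2
      have h3 : 1 ≤ j := Nat.pos_of_ne_zero h2
      have h4 := (hw i).2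
      have h5 : D * 1 ≤ D * j := Nat.mul_le_mul_left _ h3
      omega
    rw [h1]
    exact h i

/-- `x ∈ Sf w D 1 n` implies `ord G(x) ≥ n` -/
theorem dvd_of_Sf [Fintype σ] (G : MvPolynomial σ K) (w : σ → ℕ) (D : ℕ) (hD : 0 < D)
    (hG : ∀ a, coeff a G ≠ 0 → D ≤ Finsupp.weight w a) (n : ℕ) (x : Ac K σ)
    (hx : x ∈ (Sf w D 1 n : Set (Ac K σ))) : PowerSeries.X ^ n ∣ aeval x G := by
  classical
  rw [aeval_def, eval₂_eq']
  refine Finset.dvd_sum fun a ha => ?_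
  refine Dvd.dvd.mul_left ?_ _
  have hdx : ∀ i, PowerSeries.X ^ ((n * w i + (D - 1)) / D) ∣ x i := by
    intro i
    rw [PowerSeries.X_pow_dvd_iff]
    intro m hm
    refine hx i m ?_
    have h1 : (m + 1) * D ≤ n * w i + (D - 1) := (Nat.le_div_iff_mul_le hD).1 hm
    rw [mul_one]
    have h2 : (m + 1) * D = D * m + D := by ring
    omega
  have h1 : ∏ i, (PowerSeries.X : PowerSeries (AlgebraicClosure K)) ^
      ((n * w i + (D - 1)) / D * a i) ∣ ∏ i, x i ^ a i := by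
    refine Finset.prod_dvd_prod_of_dvd _ _ fun i _ => ?_
    rw [pow_mul]
    exact pow_dvd_pow_of_dvd (hdx i) _
  rw [Finset.prod_pow_eq_pow_sum] at h1
  refine (pow_dvd_pow _ ?_).trans h1
  have h2 : D ≤ Finsupp.weight w a := hG a (mem_support_iff.1 ha)
  rw [Finsupp.weight_apply, Finsupp.sum_fintype a (fun i c => c • w i) (fun i => zero_smul _ _)] at h2
  have h3 : D * n ≤ D * ∑ i, (n * w i + (D - 1)) / D * a i := by
    calc D * n ≤ (∑ i, a i • w i) * n := Nat.mul_le_mul_right _ h2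
      _ = ∑ i, n * w i * a i := by
          rw [Finset.sum_mul]
          refine Finset.sum_congr rfl fun i _ => ?_
          rw [smul_eq_mul]
          ring
      _ ≤ ∑ i, D * ((n * w i + (D - 1)) / D) * a i := by
          refine Finset.sum_le_sum fun i _ => Nat.mul_le_mul_right _ ?_
          have h4 := Nat.div_add_mod (n * w i + (D - 1)) D
          have h5 := Nat.mod_lt (n * w i + (D - 1)) hD
          omega
      _ = D * ∑ i, (n * w i + (D - 1)) / D * a i := by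
          rw [Finset.mul_sum]
          refine Finset.sum_congr rfl fun i _ => ?_
          ring
  exact Nat.le_of_mul_le_mul_left h3 hD

end

/-- (W1) -/
theorem t_W1 : Bas → S_W0 → S_W1 := by
  intro hB h0 K _ R _ M v hv σ _ G w D hw hD hG l hl
  have hcyl : ∀ s, IsCyl (Sf w D 1 s : Set (Ac K σ)) := fun s =>
    (h0 M v hv w D 1 s (fun i => (hw i).1) hD Nat.one_pos).1
  have hB1 : ∀ m ∈ Finset.Icc 1 l,
      IsCyl {x ∈ (Sf w D 1 m : Set (Ac K σ)) | x ∉ Sf w D 1 (m + 1) ∧ Od (aeval x G) l} := by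
    intro m _
    exact (cyl_ops M v hv hB.v1).2.1 _ _ (hcyl m) ((cyl_ops M v hv hB.v1).2.1 _ _
      ((cyl_ops M v hv hB.v1).1 _ (hcyl (m + 1))) (cyl_Od M v hv hB.v1 hB.cc G l))
  have hdis : ∀ m ∈ Finset.Icc 1 l, ∀ m' ∈ Finset.Icc 1 l, m ≠ m' →
      Disjoint {x ∈ (Sf w D 1 m : Set (Ac K σ)) | x ∉ Sf w D 1 (m + 1) ∧ Od (aeval x G) l}
        {x ∈ (Sf w D 1 m' : Set (Ac K σ)) | x ∉ Sf w D 1 (m' + 1) ∧ Od (aeval x G) l} := by
    intro m _ m' _ hne
    rw [Set.disjoint_left]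
    rintro x ⟨h1, h2, -⟩ ⟨h3, h4, -⟩
    rcases Nat.lt_or_gt_of_ne hne with h | h
    · exact h2 (Sf_anti w D 1 h h3)
    · exact h4 (Sf_anti w D 1 h h1)
  rw [← vol_finUnion M v hv hB.v1 (Finset.Icc 1 l)
    (fun m => {x ∈ (Sf w D 1 m : Set (Ac K σ)) | x ∉ Sf w D 1 (m + 1) ∧ Od (aeval x G) l}) hB1 hdis]
  congr 1
  ext x
  simp only [A1, Set.mem_ofPred_eq, Finset.mem_Icc]
  constructor
  · rintro ⟨hx, hO⟩
    have h1 : x ∈ (Sf w D 1 1 : Set (Ac K σ)) := (Sf_one w D hw x).2 hx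
    have h2 : x ∉ (Sf w D 1 (l + 1) : Set (Ac K σ)) := by
      intro h3
      have h4 := dvd_of_Sf G w D hD hG (l + 1) x h3
      rw [PowerSeries.X_pow_dvd_iff] at h4
      exact hO.2 (h4 l (Nat.lt_succ_self l))
    -- the largest level
    have hex : ∃ m, x ∉ (Sf w D 1 (m + 1) : Set (Ac K σ)) := ⟨l, h2⟩
    classical
    have h5 := Nat.find_spec hex
    have h6 : Nat.find hex ≤ l := Nat.find_min' hex h2
    have h7 : Nat.find hex ≠ 0 := by
      intro h8
      rw [h8] at h5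
      exact h5 h1
    refine ⟨Nat.find hex, ⟨Nat.pos_of_ne_zero h7, h6⟩, ?_, h5, hO⟩
    have h9 := Nat.find_min hex (m := Nat.find hex - 1) (by omega)
    rw [not_not, Nat.sub_add_cancel (Nat.pos_of_ne_zero h7)] at h9
    exact h9
  · rintro ⟨m, ⟨hm1, -⟩, hx, -, hO⟩
    exact ⟨(Sf_one w D hw x).1 (Sf_anti w D 1 hm1 hx), hO⟩

end Pool.Agent.J4H40.YK
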